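import Pool.Agent.W753.CZ.Crouzeix

set_option autoImplicit false

open Polynomial

namespace Pool.Agent.L0h24.QNR

variable {H : Type*} [NormedAddCommGroup H] [InnerProductSpace ℂ H]

/-- The union of the circles with centre `⟨Ax,x⟩` and radius `t ‖Ax - ⟨Ax,x⟩x‖`, `‖x‖ = 1`, if the
dimension is at least two. -/
def Om (A : H →L[ℂ] H) (t : ℝ) : Set ℂ :=
  {z | ∃ x w : H, ‖x‖ = 1 ∧ ‖w‖ = 1 ∧ inner ℂ x w = 0 ∧ z = inner ℂ x (A x) + t * inner ℂ w (A x)}

/-- Every unit vector has an orthogonal unit vector. -/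
def Two (H : Type*) [NormedAddCommGroup H] [InnerProductSpace ℂ H] : Prop :=
  ∀ x : H, ‖x‖ = 1 → ∃ w : H, ‖w‖ = 1 ∧ inner ℂ x w = 0

/-- A bound on the circles gives a bound on the discs. -/
theorem disc (h2 : Two H) (A : H →L[ℂ] H) {t : ℝ} (ht : 0 < t) (p : ℂ[X]) {M : ℝ}
    (hM : ∀ z ∈ Om A t, ‖p.eval z‖ ≤ M) {x w : H} (hx : ‖x‖ = 1) (hw : ‖w‖ ≤ t)
    (hxw : inner ℂ x w = 0) : ‖p.eval (inner ℂ x (A x) + inner ℂ w (A x))‖ ≤ M := by
  set c0 : ℂ := inner ℂ x (A x) with hc0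
  set d : H := A x - c0 • x with hd
  have hxx : inner ℂ x x = (1 : ℂ) := by rw [inner_self_eq_norm_sq_to_K, hx]; simp
  have hxd : inner ℂ x d = 0 := by
    rw [hd, inner_sub_right, inner_smul_right, hxx, ← hc0]; ring
  have hAx : A x = d + c0 • x := by rw [hd]; abel
  have hwx : inner ℂ w x = (0 : ℂ) := by rw [← inner_conj_symm, hxw]; simp
  have hwd : ∀ v : H, inner ℂ x v = 0 → inner ℂ v (A x) = inner ℂ v d := by
    intro v hv
    have hvx : inner ℂ v x = (0 : ℂ) := by rw [← inner_conj_symm, hv]; simp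
    rw [hAx, inner_add_right, inner_smul_right, hvx, mul_zero, add_zero]
  rcases eq_or_ne d 0 with h0 | h0
  · obtain ⟨v, hv1, hv2⟩ := h2 x hx
    apply hM
    refine ⟨x, v, hx, hv1, hv2, ?_⟩
    rw [hwd w hxw, hwd v hv2, h0, inner_zero_right, inner_zero_right, mul_zero]
  · have hd0 : 0 < ‖d‖ := norm_pos_iff.mpr h0
    set ρ : ℝ := t * ‖d‖ with hρ
    have hρ0 : 0 < ρ := by positivity
    have hz : c0 + inner ℂ w (A x) ∈ closure (Metric.ball c0 ρ) := by
      rw [closure_ball c0 hρ0.ne', Metric.mem_closedBall, dist_eq_norm, add_sub_cancel_left,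
        hwd w hxw]
      calc ‖inner ℂ w d‖ ≤ ‖w‖ * ‖d‖ := norm_inner_le_norm _ _
        _ ≤ t * ‖d‖ := by gcongr
    refine Complex.norm_le_of_forall_mem_frontier_norm_le Metric.isBounded_ball
      (p.differentiable.diffContOnCl) ?_ hz
    intro ζ hζ
    rw [frontier_ball c0 hρ0.ne', mem_sphere_iff_norm] at hζ
    apply hM
    set e : ℂ := (ζ - c0) / ρ with he
    have hρc : (ρ : ℂ) ≠ 0 := by exact_mod_cast hρ0.ne'
    have he1 : ‖e‖ = 1 := by
      rw [he, norm_div, hζ, Complex.norm_real, Real.norm_of_nonneg hρ0.le, div_self hρ0.ne']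
    have hdc : (‖d‖ : ℂ) ≠ 0 := by exact_mod_cast hd0.ne'
    refine ⟨x, ((starRingEnd ℂ e) * (‖d‖ : ℂ)⁻¹) • d, hx, ?_, ?_, ?_⟩
    · rw [norm_smul, norm_mul, RCLike.norm_conj, he1, norm_inv, Complex.norm_real, norm_norm,
        one_mul, inv_mul_cancel₀ hd0.ne']
    · rw [inner_smul_right, hxd, mul_zero]
    · have h3 : inner ℂ (((starRingEnd ℂ e) * (‖d‖ : ℂ)⁻¹) • d) (A x) = e * ‖d‖ := by
        rw [hwd _ (by rw [inner_smul_right, hxd, mul_zero]), inner_smul_left,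
          inner_self_eq_norm_sq_to_K]
        simp only [map_mul, map_inv₀, Complex.conj_conj, Complex.conj_ofReal]
        show e * (‖d‖ : ℂ)⁻¹ * (‖d‖ : ℂ) ^ 2 = e * ‖d‖
        field_simp
      rw [h3, he, hρ]
      have htc : (t : ℂ) ≠ 0 := by exact_mod_cast ht.ne'
      push_cast
      field_simp
      ring

end Pool.Agent.L0h24.QNR
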