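import Pool.Agent.L0h24.QNR.Sim

set_option autoImplicit false

open Polynomial

namespace Pool.Agent.L0h24.QNR

variable {H : Type*} [NormedAddCommGroup H] [InnerProductSpace ℂ H]

theorem aeval_conj (A S S' : H →L[ℂ] H) (h1 : S * S' = 1) (h2 : S' * S = 1) (p : ℂ[X]) :
    aeval (S * A * S') p = S * aeval A p * S' := by
  have hpow : ∀ n : ℕ, (S * A * S') ^ n = S * A ^ n * S' := by
    intro n
    induction n with
    | zero => rw [pow_zero, pow_zero, mul_one, h1]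
    | succ n ih =>
      rw [pow_succ, ih, pow_succ]
      calc S * A ^ n * S' * (S * A * S') = S * A ^ n * (S' * S) * A * S' := by noncomm_ring
        _ = S * (A ^ n * A) * S' := by rw [h2, mul_one]; noncomm_ring
  induction p using Polynomial.induction_on' with
  | add p q hp hq => rw [map_add, map_add, hp, hq]; noncomm_ring
  | monomial n a =>
    rw [aeval_monomial, aeval_monomial, hpow, Algebra.algebraMap_eq_smul_one, smul_mul_assoc,
      one_mul, smul_mul_assoc, one_mul, mul_smul_comm, smul_mul_assoc]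

variable [CompleteSpace H]

/-- The off-diagonal entries of `p(A)` are at most `2 M / r`. -/
theorem off_diag [Nontrivial H] (h2 : Two H) (A : H →L[ℂ] H) {t α : ℝ} (ht : 0 < t) (hα : 0 < α)
    (htα : ((α ^ 2 + (α⁻¹) ^ 2) / 2) ^ 2 ≤ 1 + t ^ 2) (p : ℂ[X]) {M : ℝ}
    (hM : ∀ z ∈ Om A t, ‖p.eval z‖ ≤ M) {x y : H} (hx : ‖x‖ = 1) (hy : ‖y‖ = 1)
    (hxy : inner ℂ x y = 0) : α ^ 2 * ‖inner ℂ y ((aeval A p) x)‖ ≤ 2 * M := by
  have hαα : α⁻¹ * α = 1 := inv_mul_cancel₀ hα.ne'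
  have hαα' : α * α⁻¹ = 1 := mul_inv_cancel₀ hα.ne'
  have hF1 : F x y 1 1 = (1 : H →L[ℂ] H) := by
    ext v
    rw [F_apply]
    simp
  have e1 : F x y α⁻¹ α * F x y α α⁻¹ = 1 := by
    rw [← hF1]
    ext v
    show F x y α⁻¹ α (F x y α α⁻¹ v) = _
    rw [F_F hx hy hxy, hαα, hαα']
  have e2 : F x y α α⁻¹ * F x y α⁻¹ α = 1 := by
    rw [← hF1]
    ext v
    show F x y α α⁻¹ (F x y α⁻¹ α v) = _
    rw [F_F hx hy hxy, hαα, hαα']
  have h := W753.CZ.crouzeix_bound ((F x y α⁻¹ α) * A * (F x y α α⁻¹)) p M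
    (sim_range hx hy hxy h2 A ht hα htα p hM)
  rw [aeval_conj A _ _ e1 e2] at h
  have h3 : F x y α α⁻¹ x = (α : ℂ) • x := by
    have hxx : inner ℂ x x = (1 : ℂ) := by rw [inner_self_eq_norm_sq_to_K, hx]; simp
    have hyx : inner ℂ y x = (0 : ℂ) := by rw [← inner_conj_symm, hxy]; simp
    rw [F_apply, hxx, hyx, mul_zero, zero_smul, add_zero, mul_one]
    module
  have h4 : inner ℂ y ((F x y α⁻¹ α * aeval A p * F x y α α⁻¹) x) =
      (α : ℂ) ^ 2 * inner ℂ y ((aeval A p) x) := by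
    show inner ℂ y (F x y α⁻¹ α ((aeval A p) (F x y α α⁻¹ x))) = _
    rw [F_y hx hy hxy, h3, map_smul, inner_smul_right]
    ring
  calc α ^ 2 * ‖inner ℂ y ((aeval A p) x)‖
      = ‖inner ℂ y ((F x y α⁻¹ α * aeval A p * F x y α α⁻¹) x)‖ := by
        rw [h4, norm_mul, norm_pow, Complex.norm_real, Real.norm_of_nonneg hα.le]
    _ ≤ ‖y‖ * ‖(F x y α⁻¹ α * aeval A p * F x y α α⁻¹) x‖ := norm_inner_le_norm _ _
    _ ≤ 1 * (2 * M * ‖x‖) := by
        rw [hy]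
        gcongr
        exact (ContinuousLinearMap.le_opNorm _ x).trans (by gcongr)
    _ = 2 * M := by rw [hx]; ring

/-- The distance of `p(A)x` to the line through `x` is at most `2 M / r`. -/
theorem dev [Nontrivial H] (h2 : Two H) (A : H →L[ℂ] H) {t α : ℝ} (ht : 0 < t) (hα : 0 < α)
    (htα : ((α ^ 2 + (α⁻¹) ^ 2) / 2) ^ 2 ≤ 1 + t ^ 2) (p : ℂ[X]) {M : ℝ} 
    (hM : ∀ z ∈ Om A t, ‖p.eval z‖ ≤ M) {x : H} (hx : ‖x‖ = 1) :
    ‖(aeval A p) x‖ ^ 2 - ‖inner ℂ x ((aeval A p) x)‖ ^ 2 ≤ (2 * M / α ^ 2) ^ 2 := by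
  set T := aeval A p with hT
  set c0 : ℂ := inner ℂ x (T x) with hc0
  set d : H := T x - c0 • x with hd
  have hxx : inner ℂ x x = (1 : ℂ) := by rw [inner_self_eq_norm_sq_to_K, hx]; simp
  have hxd : inner ℂ x d = 0 := by
    rw [hd, inner_sub_right, inner_smul_right, hxx, ← hc0]; ring
  have hTx : T x = c0 • x + d := by rw [hd]; abel
  have hn : ‖T x‖ ^ 2 = ‖c0‖ ^ 2 + ‖d‖ ^ 2 := by
    have h4 := norm_add_sq_eq_norm_sq_add_norm_sq_of_inner_eq_zero (𝕜 := ℂ) (c0 • x) d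
      (by rw [inner_smul_left, hxd, mul_zero])
    rw [hTx, sq, h4, norm_smul, hx]
    ring
  rw [hn, add_sub_cancel_left]
  rcases eq_or_ne d 0 with h0 | h0
  · rw [h0, norm_zero, zero_pow two_ne_zero]
    positivity
  · have hd0 : 0 < ‖d‖ := norm_pos_iff.mpr h0
    have hdc : (‖d‖ : ℂ) ≠ 0 := by exact_mod_cast hd0.ne'
    have h := off_diag h2 A ht hα htα p hM (x := x) (y := ((‖d‖ : ℂ)⁻¹) • d) hx
      (by rw [norm_smul, norm_inv, Complex.norm_real, norm_norm, inv_mul_cancel₀ hd0.ne'])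
      (by rw [inner_smul_right, hxd, mul_zero])
    have h5 : inner ℂ (((‖d‖ : ℂ)⁻¹) • d) (T x) = (‖d‖ : ℂ) := by
      have hdx : inner ℂ d x = (0 : ℂ) := by rw [← inner_conj_symm, hxd]; simp
      rw [hTx, inner_smul_left, inner_add_right, inner_smul_right, hdx, mul_zero, zero_add,
        inner_self_eq_norm_sq_to_K, map_inv₀, Complex.conj_ofReal]
      show (‖d‖ : ℂ)⁻¹ * (‖d‖ : ℂ) ^ 2 = ‖d‖
      field_simp
    rw [← hT, h5, Complex.norm_real, norm_norm] at h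
    have h6 : ‖d‖ ≤ 2 * M / α ^ 2 := by
      rw [le_div_iff₀ (by positivity)]
      linarith
    gcongr

/-- `|w - ε + ε̄ w²| ≤ 1 + 2|ε|²` for `|w| ≤ 1`, `|ε| ≤ 1`. -/
theorem perturb (w ε : ℂ) (hw : ‖w‖ ≤ 1) (hε : ‖ε‖ ≤ 1) :
    ‖w - ε + (starRingEnd ℂ ε) * w ^ 2‖ ≤ 1 + 2 * ‖ε‖ ^ 2 := by
  have e1 : w - ε + (starRingEnd ℂ ε) * w ^ 2 =
      (w - ε) * (1 + (starRingEnd ℂ ε) * w) + (‖ε‖ : ℂ) ^ 2 * w := by
    have h : (‖ε‖ : ℂ) ^ 2 = ε * starRingEnd ℂ ε := by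
      rw [RCLike.mul_conj]; rfl
    rw [h]; ring
  have h1 : ‖w - ε‖ ≤ ‖1 - (starRingEnd ℂ ε) * w‖ := by
    apply le_of_sq_le_sq _ (norm_nonneg _)
    rw [← Complex.normSq_eq_norm_sq, ← Complex.normSq_eq_norm_sq, Complex.normSq_apply,
      Complex.normSq_apply]
    have h2 : w.re * w.re + w.im * w.im ≤ 1 := by
      rw [← Complex.normSq_apply, Complex.normSq_eq_norm_sq]
      nlinarith [norm_nonneg w]
    have h3 : ε.re * ε.re + ε.im * ε.im ≤ 1 := by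
      rw [← Complex.normSq_apply, Complex.normSq_eq_norm_sq]
      nlinarith [norm_nonneg ε]
    simp only [Complex.sub_re, Complex.sub_im, Complex.one_re, Complex.one_im, Complex.mul_re,
      Complex.mul_im, Complex.conj_re, Complex.conj_im]
    nlinarith
  have h2 : ‖(w - ε) * (1 + (starRingEnd ℂ ε) * w)‖ ≤ 1 + ‖ε‖ ^ 2 := by
    calc ‖(w - ε) * (1 + (starRingEnd ℂ ε) * w)‖
        = ‖w - ε‖ * ‖1 + (starRingEnd ℂ ε) * w‖ := norm_mul _ _
      _ ≤ ‖1 - (starRingEnd ℂ ε) * w‖ * ‖1 + (starRingEnd ℂ ε) * w‖ := by gcongr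
      _ = ‖1 - ((starRingEnd ℂ ε) * w) ^ 2‖ := by rw [← norm_mul]; congr 1; ring
      _ ≤ ‖(1 : ℂ)‖ + ‖((starRingEnd ℂ ε) * w) ^ 2‖ := norm_sub_le _ _
      _ = 1 + (‖ε‖ * ‖w‖) ^ 2 := by rw [norm_one, norm_pow, norm_mul, RCLike.norm_conj]
      _ ≤ 1 + (‖ε‖ * 1) ^ 2 := by gcongr
      _ = 1 + ‖ε‖ ^ 2 := by ring
  rw [e1]
  calc ‖(w - ε) * (1 + (starRingEnd ℂ ε) * w) + (‖ε‖ : ℂ) ^ 2 * w‖
      ≤ ‖(w - ε) * (1 + (starRingEnd ℂ ε) * w)‖ + ‖(‖ε‖ : ℂ) ^ 2 * w‖ := norm_add_le _ _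
    _ ≤ (1 + ‖ε‖ ^ 2) + ‖ε‖ ^ 2 * 1 := by
        gcongr
        rw [norm_mul, norm_pow, Complex.norm_real, norm_norm]
        gcongr
    _ = 1 + 2 * ‖ε‖ ^ 2 := by ring

/-- Near-extremal vectors are nearly orthogonal. -/
theorem near_orth (A : H →L[ℂ] H) {t K : ℝ}
    (hK : ∀ (f : ℂ[X]) (L : ℝ), 0 < L → (∀ z ∈ Om A t, ‖f.eval z‖ ≤ L) → ‖aeval A f‖ ≤ K * L)
    (p : ℂ[X]) (hp : ∀ z ∈ Om A t, ‖p.eval z‖ ≤ 1) {κ : ℝ} (hκ : ‖aeval A p‖ = κ) (hκ0 : 0 < κ)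
    {x : H} (hx : ‖x‖ = 1) (hxκ : ‖(aeval A p) x‖ = κ) {s : ℝ} (hs0 : 0 ≤ s) (hs1 : s ≤ 1) :
    s * ‖inner ℂ x ((aeval A p) x)‖ * (κ - 1 / κ) ≤ K * (1 + 2 * s ^ 2) - κ := by
  set T := aeval A p with hT
  set μ : ℂ := inner ℂ x (T x) with hμ
  obtain ⟨u, hu1, hu2⟩ : ∃ u : ℂ, ‖u‖ = 1 ∧ (starRingEnd ℂ u) * μ = ‖μ‖ := by
    rcases eq_or_ne μ 0 with h0 | h0
    · exact ⟨1, by simp, by simp [h0]⟩
    · have h1 : (‖μ‖ : ℂ) ≠ 0 := by
        exact_mod_cast (norm_pos_iff.mpr h0).ne'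
      refine ⟨μ / ‖μ‖, ?_, ?_⟩
      · rw [norm_div, Complex.norm_real, norm_norm, div_self (norm_pos_iff.mpr h0).ne']
      · rw [map_div₀, Complex.conj_ofReal, div_mul_eq_mul_div, RCLike.conj_mul]
        show (‖μ‖ : ℂ) ^ 2 / ‖μ‖ = ‖μ‖
        field_simp
  set ε : ℂ := (s : ℂ) * u with hε
  have hεn : ‖ε‖ = s := by rw [hε, norm_mul, hu1, Complex.norm_real, Real.norm_of_nonneg hs0, mul_one]
  set f : ℂ[X] := p - C ε + C (starRingEnd ℂ ε) * p ^ 2 with hf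
  have hfb : ‖aeval A f‖ ≤ K * (1 + 2 * s ^ 2) := by
    apply hK f _ (by positivity)
    intro z hz
    have h1 := perturb (p.eval z) ε (hp z hz) (by rw [hεn]; exact hs1)
    rw [hεn] at h1
    rw [hf]
    simpa using h1
  have hfA : (aeval A f) x = T x - ε • x + (starRingEnd ℂ ε) • T (T x) := by
    rw [hf]
    simp only [map_add, map_sub, map_mul, aeval_C, ← hT, Algebra.algebraMap_eq_smul_one,
      sq, smul_mul_assoc, one_mul]
    rfl
  -- `T† T x = κ² x`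
  have hTT : ∀ v : H, inner ℂ (T x) (T v) = (κ : ℂ) ^ 2 * inner ℂ x v := by
    have h1 : (ContinuousLinearMap.adjoint T) (T x) = ((κ : ℂ) ^ 2) • x := by
      rw [← sub_eq_zero, ← norm_eq_zero, ← sq_eq_zero_iff]
      apply le_antisymm _ (by positivity)
      have h2 := norm_sub_sq (𝕜 := ℂ) ((ContinuousLinearMap.adjoint T) (T x)) (((κ : ℂ) ^ 2) • x)
      have h3 : RCLike.re (inner ℂ ((ContinuousLinearMap.adjoint T) (T x)) (((κ : ℂ) ^ 2) • x)) =
          κ ^ 4 := by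
        rw [ContinuousLinearMap.adjoint_inner_left, map_smul, inner_smul_right,
          inner_self_eq_norm_sq_to_K, hxκ]
        show ((κ : ℂ) ^ 2 * (κ : ℂ) ^ 2).re = κ ^ 4
        rw [← pow_add]
        norm_cast
      have h4 : ‖(ContinuousLinearMap.adjoint T) (T x)‖ ≤ κ * κ := by
        calc _ ≤ ‖ContinuousLinearMap.adjoint T‖ * ‖T x‖ := ContinuousLinearMap.le_opNorm _ _
          _ = κ * κ := by rw [hxκ, LinearIsometryEquiv.norm_map, hκ]
      have h5 : ‖((κ : ℂ) ^ 2) • x‖ = κ ^ 2 := by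
        rw [norm_smul, norm_pow, Complex.norm_real, Real.norm_of_nonneg hκ0.le, hx, mul_one]
      rw [h2, h3, h5]
      nlinarith [norm_nonneg ((ContinuousLinearMap.adjoint T) (T x))]
    intro v
    rw [← ContinuousLinearMap.adjoint_inner_left, h1, inner_smul_left]
    simp
  have hin : inner ℂ (T x) ((aeval A f) x) = ((κ ^ 2 + s * ‖μ‖ * (κ ^ 2 - 1) : ℝ) : ℂ) := by
    rw [hfA, inner_add_right, inner_sub_right, inner_smul_right, inner_smul_right, hTT (T x),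
      inner_self_eq_norm_sq_to_K, hxκ, ← hμ]
    have h1 : inner ℂ (T x) x = starRingEnd ℂ μ := by rw [hμ, inner_conj_symm]
    rw [h1, hε, map_mul, Complex.conj_ofReal]
    have h3 : u * starRingEnd ℂ μ = ‖μ‖ := by
      have := congrArg (starRingEnd ℂ) hu2
      rw [map_mul, Complex.conj_conj, Complex.conj_ofReal] at this
      exact this
    have h4 : (s : ℂ) * u * starRingEnd ℂ μ = s * ‖μ‖ := by rw [mul_assoc, h3]
    have h5 : (s : ℂ) * starRingEnd ℂ u * ((κ : ℂ) ^ 2 * μ) = s * κ ^ 2 * ‖μ‖ := by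
      calc _ = (s : ℂ) * κ ^ 2 * (starRingEnd ℂ u * μ) := by ring
        _ = _ := by rw [hu2]
    rw [h4, h5]
    push_cast
    show (κ : ℂ) ^ 2 - s * ‖μ‖ + s * κ ^ 2 * ‖μ‖ = _
    ring
  have hb : κ ^ 2 + s * ‖μ‖ * (κ ^ 2 - 1) ≤ κ * (K * (1 + 2 * s ^ 2)) := by
    calc κ ^ 2 + s * ‖μ‖ * (κ ^ 2 - 1) ≤ ‖((κ ^ 2 + s * ‖μ‖ * (κ ^ 2 - 1) : ℝ) : ℂ)‖ := by
          rw [Complex.norm_real]; exact Real.le_norm_self _
      _ = ‖inner ℂ (T x) ((aeval A f) x)‖ := by rw [hin]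
      _ ≤ ‖T x‖ * ‖(aeval A f) x‖ := norm_inner_le_norm _ _
      _ ≤ κ * (K * (1 + 2 * s ^ 2) * ‖x‖) := by
          rw [hxκ]
          gcongr
          exact (ContinuousLinearMap.le_opNorm _ x).trans (by gcongr)
      _ = _ := by rw [hx]; ring
  have h7 : κ * (s * ‖μ‖ * (κ - 1 / κ)) ≤ κ * (K * (1 + 2 * s ^ 2) - κ) := by
    have e : κ * (s * ‖μ‖ * (κ - 1 / κ)) = s * ‖μ‖ * (κ ^ 2 - 1) := by field_simp
    rw [e]
    linarith
  exact le_of_mul_le_mul_left h7 hκ0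

/-- In finite dimension the operator norm is attained. -/
theorem exists_attained [FiniteDimensional ℂ H] [Nontrivial H] (T : H →L[ℂ] H) :
    ∃ x : H, ‖x‖ = 1 ∧ ‖T x‖ = ‖T‖ := by
  have : ProperSpace H := FiniteDimensional.proper ℂ H
  have hc : IsCompact (Metric.sphere (0 : H) 1) := isCompact_sphere 0 1
  have hne : (Metric.sphere (0 : H) 1).Nonempty := by
    obtain ⟨x, hx⟩ := exists_norm_eq H zero_le_one
    exact ⟨x, by simpa using hx⟩
  obtain ⟨x, hx, hmax⟩ := hc.exists_isMaxOn hne (f := fun x => ‖T x‖) (by fun_prop)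
  have hx1 : ‖x‖ = 1 := by simpa using hx
  refine ⟨x, hx1, le_antisymm ?_ ?_⟩
  · calc ‖T x‖ ≤ ‖T‖ * ‖x‖ := T.le_opNorm x
      _ = ‖T‖ := by rw [hx1, mul_one]
  · apply T.opNorm_le_bound (norm_nonneg _)
    intro v
    rcases eq_or_ne v 0 with h0 | h0
    · simp [h0]
    · have hv : 0 < ‖v‖ := norm_pos_iff.mpr h0
      have h1 : ((‖v‖ : ℂ)⁻¹) • v ∈ Metric.sphere (0 : H) 1 := by
        rw [mem_sphere_zero_iff_norm, norm_smul, norm_inv, Complex.norm_real, norm_norm,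
          inv_mul_cancel₀ hv.ne']
      have h2 := hmax h1
      simp only [Set.mem_ofPred_eq, map_smul, norm_smul, norm_inv, Complex.norm_real,
        norm_norm] at h2
      rw [inv_mul_le_iff₀ hv] at h2
      linarith

/-- **The main bound**: `‖p(A)‖ ≤ max(1, 2/r) sup |p|`, `r = t + √(1 + t²)`. -/
theorem main [FiniteDimensional ℂ H] [Nontrivial H] (h2 : Two H) (A : H →L[ℂ] H) {t r : ℝ}
    (ht : 0 < t) (hr : 0 < r) (htr : ((r + r⁻¹) / 2) ^ 2 ≤ 1 + t ^ 2) (p : ℂ[X]) {M : ℝ}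
    (hM : ∀ z ∈ Om A t, ‖p.eval z‖ ≤ M) : ‖aeval A p‖ ≤ max 1 (2 / r) * M := by
  set c : ℝ := max 1 (2 / r) with hc
  have hc1 : 1 ≤ c := le_max_left _ _
  have hcr : 2 / r ≤ c := le_max_right _ _
  set α : ℝ := √r with hα
  have hα0 : 0 < α := Real.sqrt_pos.mpr hr
  have hα2 : α ^ 2 = r := Real.sq_sqrt hr.le
  have htα : ((α ^ 2 + (α⁻¹) ^ 2) / 2) ^ 2 ≤ 1 + t ^ 2 := by
    rw [inv_pow, hα2]; exact htr
  -- `Ω` contains the numerical range
  have hcx : ∀ (f : ℂ[X]) (L : ℝ), (∀ z ∈ Om A t, ‖f.eval z‖ ≤ L) → ‖aeval A f‖ ≤ 2 * L := by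
    intro f L hL
    apply W753.CZ.crouzeix_bound
    rintro w ⟨x, hx, rfl⟩
    have := disc h2 A ht f hL hx (w := 0) (by rw [norm_zero]; exact ht.le) (inner_zero_right _)
    rwa [inner_zero_left, add_zero] at this
  have hOm : (Om A t).Nonempty := by
    obtain ⟨x, hx⟩ := exists_norm_eq H zero_le_one
    obtain ⟨w, hw1, hw2⟩ := h2 x hx
    exact ⟨_, x, w, hx, hw1, hw2, rfl⟩
  set S : Set ℝ := {v | ∃ f : ℂ[X], (∀ z ∈ Om A t, ‖f.eval z‖ ≤ 1) ∧ v = ‖aeval A f‖} with hS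
  have hSb : BddAbove S := by
    refine ⟨2, ?_⟩
    rintro v ⟨f, hf, rfl⟩
    have := hcx f 1 hf
    linarith
  have hSn : S.Nonempty := ⟨_, 0, by simp, rfl⟩
  set K : ℝ := sSup S with hK
  have hKf : ∀ (f : ℂ[X]) (L : ℝ), 0 < L → (∀ z ∈ Om A t, ‖f.eval z‖ ≤ L) →
      ‖aeval A f‖ ≤ K * L := by
    intro f L hL hf
    have h1 : ‖aeval A (C ((L : ℂ)⁻¹) * f)‖ ≤ K := by
      apply le_csSup hSb
      refine ⟨_, ?_, rfl⟩
      intro z hz
      rw [eval_mul, eval_C, norm_mul, norm_inv, Complex.norm_real, Real.norm_of_nonneg hL.le,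
        inv_mul_le_iff₀ hL, mul_one]
      exact hf z hz
    rw [map_mul, aeval_C, Algebra.algebraMap_eq_smul_one, smul_mul_assoc, one_mul, norm_smul,
      norm_inv, Complex.norm_real, Real.norm_of_nonneg hL.le, inv_mul_le_iff₀ hL] at h1
    linarith
  have hmain : K ≤ c := by
    by_contra hcon
    push Not at hcon
    set κ0 : ℝ := (K + c) / 2 with hκ0
    have hκ0c : c < κ0 := by rw [hκ0]; linarith
    have hκ0K : κ0 < K := by rw [hκ0]; linarith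
    have hκ01 : 1 < κ0 := by linarith
    have hK0 : 0 < K := by linarith
    set ε0 : ℝ := κ0 ^ 2 - (2 / r) ^ 2 with hε0
    have h2r : 0 < 2 / r := by positivity
    have hε00 : 0 < ε0 := by rw [hε0]; nlinarith
    set D : ℝ := κ0 - 1 / κ0 with hD
    have hD0 : 0 < D := by
      have : 1 / κ0 < 1 := by rw [div_lt_one (by linarith)]; exact hκ01
      rw [hD]; linarith
    set s : ℝ := min 1 (√ε0 * D / (4 * K)) with hs
    have hse : 0 < √ε0 := Real.sqrt_pos.mpr hε00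
    have hs0 : 0 < s := lt_min one_pos (by positivity)
    have hs1 : s ≤ 1 := min_le_left _ _
    have hs2 : 2 * K * s ≤ √ε0 * D / 2 := by
      have : s ≤ √ε0 * D / (4 * K) := min_le_right _ _
      rw [le_div_iff₀ (by positivity)] at this
      linarith
    set η : ℝ := s * √ε0 * D / 4 with hη
    have hη0 : 0 < η := by positivity
    obtain ⟨κ, ⟨f, hf, hκf⟩, hκ⟩ := exists_lt_of_lt_csSup hSn
      (show max κ0 (K - η) < sSup S from max_lt hκ0K (by linarith))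
    have hκ1 : κ0 < κ := lt_of_le_of_lt (le_max_left _ _) hκ
    have hκ2 : K - η < κ := lt_of_le_of_lt (le_max_right _ _) hκ
    obtain ⟨x, hx, hxκ⟩ := exists_attained (aeval A f)
    rw [← hκf] at hxκ
    have h3 := near_orth A hKf f hf hκf.symm (by linarith) hx hxκ hs0.le hs1
    have h4 := dev h2 A ht hα0 htα f hf hx
    rw [hxκ, hα2, mul_one] at h4
    set m : ℝ := ‖inner ℂ x ((aeval A f) x)‖ with hm
    have hm0 : 0 ≤ m := norm_nonneg _
    have h5 : √ε0 ≤ m := by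
      rw [Real.sqrt_le_left hm0, hε0]
      nlinarith
    have h6 : D ≤ κ - 1 / κ := by
      have : 1 / κ ≤ 1 / κ0 := by
        apply one_div_le_one_div_of_le (by linarith) hκ1.le
      rw [hD]; linarith
    have h7 : s * √ε0 * D ≤ s * m * (κ - 1 / κ) := by gcongr
    have h8 : K * (1 + 2 * s ^ 2) - κ < η + s * (2 * K * s) := by
      have e : K * (1 + 2 * s ^ 2) = K + s * (2 * K * s) := by ring
      rw [e]
      linarith
    have h9 : s * (2 * K * s) ≤ s * (√ε0 * D / 2) := mul_le_mul_of_nonneg_left hs2 hs0.le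
    have h10 : 0 < s * √ε0 * D := by positivity
    have h11 : s * (√ε0 * D / 2) = s * √ε0 * D / 2 := by ring
    have h12 : s * √ε0 * D ≤ K * (1 + 2 * s ^ 2) - κ := h7.trans h3
    rw [hη] at h8
    linarith
  have hM0 : 0 ≤ M := by
    obtain ⟨z, hz⟩ := hOm
    exact (norm_nonneg _).trans (hM z hz)
  refine le_of_forall_pos_le_add fun e he => ?_
  have h3 := hKf p (M + e / c) (by positivity) (fun z hz => (hM z hz).trans (by
    have : 0 < e / c := by positivity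
    linarith))
  calc ‖aeval A p‖ ≤ K * (M + e / c) := h3
    _ ≤ c * (M + e / c) := by gcongr
    _ = c * M + e := by field_simp

end Pool.Agent.L0h24.QNR
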