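import Pool.Agent.L0h24.QNR.Disc

set_option autoImplicit false

open Polynomial

namespace Pool.Agent.L0h24.QNR

variable {H : Type*} [NormedAddCommGroup H] [InnerProductSpace ℂ H]

/-- The operator with `x ↦ a x`, `y ↦ b y` and the identity on the orthogonal complement. -/
noncomputable def F (x y : H) (a b : ℝ) : H →L[ℂ] H :=
  1 + ((a : ℂ) - 1) • (innerSL ℂ x).smulRight x + ((b : ℂ) - 1) • (innerSL ℂ y).smulRight y

theorem F_apply (x y : H) (a b : ℝ) (u : H) :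
    F x y a b u = u + (((a : ℂ) - 1) * inner ℂ x u) • x + (((b : ℂ) - 1) * inner ℂ y u) • y := by
  simp [F, smul_smul]

variable {x y : H} (hx : ‖x‖ = 1) (hy : ‖y‖ = 1) (hxy : inner ℂ x y = 0)

include hx hy hxy

theorem F_x (a b : ℝ) (u : H) : inner ℂ x (F x y a b u) = a * inner ℂ x u := by
  have hxx : inner ℂ x x = (1 : ℂ) := by rw [inner_self_eq_norm_sq_to_K, hx]; simp
  rw [F_apply, inner_add_right, inner_add_right, inner_smul_right, inner_smul_right, hxx, hxy]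
  ring

theorem F_y (a b : ℝ) (u : H) : inner ℂ y (F x y a b u) = b * inner ℂ y u := by
  have hyy : inner ℂ y y = (1 : ℂ) := by rw [inner_self_eq_norm_sq_to_K, hy]; simp
  have hyx : inner ℂ y x = (0 : ℂ) := by rw [← inner_conj_symm, hxy]; simp
  rw [F_apply, inner_add_right, inner_add_right, inner_smul_right, inner_smul_right, hyy, hyx]
  ring

theorem F_F (a b a' b' : ℝ) (u : H) : F x y a b (F x y a' b' u) = F x y (a * a') (b * b') u := by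
  rw [F_apply x y a b, F_x hx hy hxy, F_y hx hy hxy, F_apply, F_apply]
  push_cast
  module

theorem F_sa (a b : ℝ) (u v : H) : inner ℂ (F x y a b u) v = inner ℂ u (F x y a b v) := by
  rw [F_apply, F_apply]
  simp only [inner_add_left, inner_add_right, inner_smul_left, inner_smul_right, map_mul, map_sub,
    Complex.conj_ofReal, map_one, inner_conj_symm]
  ring

theorem F_norm (a b : ℝ) (u : H) : ‖F x y a b u‖ ^ 2 =
    ‖u‖ ^ 2 + (a ^ 2 - 1) * ‖inner ℂ x u‖ ^ 2 + (b ^ 2 - 1) * ‖inner ℂ y u‖ ^ 2 := by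
  have h : ((‖F x y a b u‖ ^ 2 : ℝ) : ℂ) =
      ((‖u‖ ^ 2 + (a ^ 2 - 1) * ‖inner ℂ x u‖ ^ 2 + (b ^ 2 - 1) * ‖inner ℂ y u‖ ^ 2 : ℝ) : ℂ) := by
    have h1 : inner ℂ (F x y a b u) (F x y a b u) = ((‖F x y a b u‖ ^ 2 : ℝ) : ℂ) := by
      rw [inner_self_eq_norm_sq_to_K]; push_cast; rfl
    rw [← h1, F_sa hx hy hxy, F_F hx hy hxy, F_apply, inner_add_right, inner_add_right,
      inner_smul_right, inner_smul_right, inner_self_eq_norm_sq_to_K]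
    have h2 : ∀ v : H, inner ℂ v u * inner ℂ u v = ((‖inner ℂ v u‖ ^ 2 : ℝ) : ℂ) := by
      intro v
      rw [← inner_conj_symm u v, RCLike.mul_conj]
      push_cast
      rfl
    push_cast at h2 ⊢
    rw [mul_assoc, mul_assoc, h2 x, h2 y]
    show (‖u‖ : ℂ) ^ 2 + _ + _ = _
    ring
  exact_mod_cast h

theorem bessel (u : H) : ‖inner ℂ x u‖ ^ 2 + ‖inner ℂ y u‖ ^ 2 ≤ ‖u‖ ^ 2 := by
  have h := F_norm hx hy hxy 0 0 u
  have h2 : 0 ≤ ‖F x y 0 0 u‖ ^ 2 := by positivity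
  nlinarith

/-- Kantorovich: the idempotents `S⁻¹ P S` have norm at most `(r + 1/r) / 2`. -/
theorem kantorovich {α : ℝ} (hα : 0 < α) (u : H) (hu : ‖u‖ = 1) :
    ‖F x y α α⁻¹ u‖ ^ 2 * ‖F x y α⁻¹ α u‖ ^ 2 ≤ ((α ^ 2 + (α⁻¹) ^ 2) / 2) ^ 2 := by
  have h1 := F_norm hx hy hxy α α⁻¹ u
  have h2 := F_norm hx hy hxy α⁻¹ α u
  have hb := bessel hx hy hxy u
  set a := ‖inner ℂ x u‖ ^ 2
  set b := ‖inner ℂ y u‖ ^ 2
  set X := ‖F x y α α⁻¹ u‖ ^ 2
  set Y := ‖F x y α⁻¹ α u‖ ^ 2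
  have ha : 0 ≤ a := by positivity
  have hb0 : 0 ≤ b := by positivity
  have hX : 0 ≤ X := by positivity
  have hY : 0 ≤ Y := by positivity
  have hαα : α * α⁻¹ = 1 := mul_inv_cancel₀ hα.ne'
  have h3 : 0 ≤ α ^ 2 + (α⁻¹) ^ 2 - 2 := by nlinarith [sq_nonneg (α - α⁻¹)]
  have h4 : X + Y ≤ α ^ 2 + (α⁻¹) ^ 2 := by
    rw [h1, h2, hu]
    rw [hu] at hb
    nlinarith
  have h5 : X * Y ≤ ((X + Y) / 2) ^ 2 := by nlinarith [sq_nonneg (X - Y)]
  calc X * Y ≤ ((X + Y) / 2) ^ 2 := h5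
    _ ≤ _ := by gcongr

/-- The numerical range of `S A S⁻¹` is contained in the union of the discs. -/
theorem sim_range (h2 : Two H) (A : H →L[ℂ] H) {t α : ℝ} (ht : 0 < t) (hα : 0 < α)
    (htα : ((α ^ 2 + (α⁻¹) ^ 2) / 2) ^ 2 ≤ 1 + t ^ 2) (p : ℂ[X]) {M : ℝ}
    (hM : ∀ z ∈ Om A t, ‖p.eval z‖ ≤ M) :
    ∀ z ∈ W753.CZ.numRange ((F x y α⁻¹ α) * A * (F x y α α⁻¹)), ‖p.eval z‖ ≤ M := by
  rintro z ⟨u, hu, rfl⟩
  have hk := kantorovich hx hy hxy hα u hu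
  have hαα : α⁻¹ * α = 1 := inv_mul_cancel₀ hα.ne'
  have hαα' : α * α⁻¹ = 1 := mul_inv_cancel₀ hα.ne'
  have hF1 : ∀ v : H, F x y 1 1 v = v := by
    intro v
    rw [F_apply]
    simp
  set v : H := F x y α α⁻¹ u with hv
  set g : H := F x y α⁻¹ α u with hg
  have hvg : inner ℂ v g = (1 : ℂ) := by
    rw [hv, hg, F_sa hx hy hxy, F_F hx hy hxy, hαα, hαα', hF1, inner_self_eq_norm_sq_to_K, hu]
    simp
  have hv0 : 0 < ‖v‖ := by
    rw [norm_pos_iff]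
    intro h0
    rw [h0, inner_zero_left] at hvg
    exact zero_ne_one hvg
  have hvc : (‖v‖ : ℂ) ≠ 0 := by exact_mod_cast hv0.ne'
  have hz : inner ℂ u (((F x y α⁻¹ α) * A * (F x y α α⁻¹)) u) = inner ℂ g (A v) := by
    show inner ℂ u (F x y α⁻¹ α (A v)) = _
    rw [← F_sa hx hy hxy]
  rw [hz]
  set x0 : H := ((‖v‖ : ℂ)⁻¹) • v with hx0
  set w : H := (‖v‖ : ℂ) • g - x0 with hw
  have hx01 : ‖x0‖ = 1 := by
    rw [hx0, norm_smul, norm_inv, Complex.norm_real, norm_norm, inv_mul_cancel₀ hv0.ne']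
  have hx00 : inner ℂ x0 x0 = (1 : ℂ) := by rw [inner_self_eq_norm_sq_to_K, hx01]; simp
  have hx0y : inner ℂ x0 ((‖v‖ : ℂ) • g) = 1 := by
    rw [hx0, inner_smul_left, inner_smul_right, hvg, map_inv₀, Complex.conj_ofReal]
    field_simp
  have hx0w : inner ℂ x0 w = 0 := by rw [hw, inner_sub_right, hx0y, hx00, sub_self]
  have hwn : ‖w‖ ≤ t := by
    have h1 : ‖(‖v‖ : ℂ) • g‖ ^ 2 = 1 + ‖w‖ ^ 2 := by
      have h3 : (‖v‖ : ℂ) • g = x0 + w := by rw [hw]; abel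
      have h4 := norm_add_sq_eq_norm_sq_add_norm_sq_of_inner_eq_zero (𝕜 := ℂ) x0 w hx0w
      rw [h3, sq, sq, h4, hx01]
      ring
    have h3 : ‖(‖v‖ : ℂ) • g‖ ^ 2 = ‖v‖ ^ 2 * ‖g‖ ^ 2 := by
      rw [norm_smul, Complex.norm_real, norm_norm, mul_pow]
    have h4 : ‖w‖ ^ 2 ≤ t ^ 2 := by
      rw [h3] at h1
      linarith
    exact abs_le_of_sq_le_sq' h4 ht.le |>.2
  have hzz : inner ℂ g (A v) = inner ℂ x0 (A x0) + inner ℂ w (A x0) := by
    rw [← inner_add_left]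
    have h3 : x0 + w = (‖v‖ : ℂ) • g := by rw [hw]; abel
    rw [h3, hx0, map_smul, inner_smul_left, inner_smul_right, Complex.conj_ofReal]
    field_simp
  rw [hzz]
  exact disc h2 A ht p hM hx01 hwn hx0w

end Pool.Agent.L0h24.QNR
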